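import Pool.Agent.H.MP_666b32_lc.D
import Pool.Agent.Lib.lead.CXSat
import Pool.Agent.Lib.lead.CXRat

set_option autoImplicit false

namespace Pool.Agent.Results.MP_666b32_lc.Hard

open Polynomial Pool.Agent.Lib.CX Pool.Agent.H.MP_666b32_lc

/-- The set listed by `S` is the orbit `x₀, f x₀, …, f^(N-1) x₀` of a real polynomial of degree at
most `K`, where `N` is the number of listed elements. -/
def Compressible (S : List ℚ) (K : ℕ) : Prop :=
  ∃ f : ℝ[X], f.natDegree ≤ K ∧ ∃ x₀ ∈ S,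
    {y : ℝ | ∃ s ∈ S, (s : ℝ) = y} = {y : ℝ | ∃ i < S.length, (fun x => f.eval x)^[i] (x₀ : ℝ) = y}

def Mw (W : List ℕ) : ℕ := 4 * W.length + 4
def xw (W : List ℕ) (j : ℕ) : ℤ := ((4 ^ min j (Mw W) : ℕ) : ℤ)
def ot (W : List ℕ) (i : ℕ) : List ℕ := (List.range (Mw W)).filter fun j => decide (j ≠ i)
def Ew (W : List ℕ) (i : ℕ) : ℤ :=
  xw W i * ((ot W i).map fun j => xw W i * xw W i - xw W j * xw W j).prod
def Dw (W : List ℕ) : ℤ := ((List.range (Mw W)).map fun i => Ew W i).prod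
def Lw (W : List ℕ) : ℤ := (LL (Mw W) : ℕ)
def ww (W : List ℕ) (a : Bool × ℕ) : ℤ := if a.1 = true then -xw W a.2 else xw W a.2
def zw (W : List ℕ) : ℤ := Dw W + ((List.range (Mw W)).map fun i =>
  (if i = W.length + 3 then 2 * Lw W else ww W (PP W i) - ww W (QQ W i)) *
    (((ot W i).map fun k => Ew W k).prod * Lw W *
      ((ot W i).map fun j => Lw W * Lw W - xw W j * xw W j).prod)).sum
def lst (W : List ℕ) : List ℤ :=
  ((List.range (Mw W)).flatMap fun i => [Dw W * xw W i, -(Dw W * xw W i)]) ++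
    [Dw W * Lw W, -(Dw W * Lw W), zw W]
def vars (φ : List (T3 ℕ)) : List ℕ := (φ.flatMap T3.vars).map fun x => x % (3 * φ.length)

section pt
variable {α : Type} [Enc α] {W : α → List ℕ} {i j : α → ℕ}

theorem size_iprod (l : List ℤ) : size l.prod ≤ size l + 6 := by
  induction l with
  | nil => rfl
  | cons a l ih =>
    have := size_mul_le a.natAbs l.prod.natAbs
    simp [size_int, Int.natAbs_mul] at *; omega

@[fun_prop] theorem pt_iprod {l : α → List ℤ} (hl : PT l) : PT (fun a => (l a).prod) :=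
  (PT.listRec (f := fun (_ : Unit) (l : List ℤ) => l.prod) (F := fun _ x _ r => x * r)
    (B := fun a => size a + 6) (by simp; fun_prop) (by fun_prop) (by simp) (by fun_prop)
    fun _ l => by have := size_iprod l; simp; omega).comp ((PT.const ()).pair hl)

@[fun_prop] theorem pt_cast {x : α → ℤ} (hx : PT x) : PT (fun a => (x a : ℚ)) :=
  (hx.pair (PT.const (1 : ℕ))).cast fun _ => rfl

@[fun_prop] theorem pt_Mw (h : PT W) : PT fun a => Mw (W a) := by unfold Mw; fun_prop
@[fun_prop] theorem pb_Mw (h : PT W) : PB fun a => Mw (W a) := by unfold Mw; fun_prop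
@[fun_prop] theorem pt_xw (h : PT W) (hi : PT i) : PT fun a => xw (W a) (i a) :=
  PT.natCast (PT.pow (PT.const _) (PT.min hi (pt_Mw h)) (PB.min_right (pb_Mw h)))
@[fun_prop] theorem pt_ot (h : PT W) (hi : PT i) : PT fun a => ot (W a) (i a) := by
  unfold ot; fun_prop
@[fun_prop] theorem pt_Ew (h : PT W) (hi : PT i) : PT fun a => Ew (W a) (i a) := by
  unfold Ew; fun_prop
@[fun_prop] theorem pt_Dw (h : PT W) : PT fun a => Dw (W a) := by unfold Dw; fun_prop
theorem pt_TH {n : α → ℕ} (h : PT n) (hb : PB n) : PT fun a => TH (n a) :=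
  PT.pow (PT.pow (PT.pow (PT.const 4) h hb) (by fun_prop) (by fun_prop)) h hb
theorem pt_BB {n : α → ℕ} (h : PT n) (hb : PB n) : PT fun a => BB (n a) :=
  PT.mul (PT.mul (PT.mul (by fun_prop) (PT.pow (PT.const 4) h hb)) (pt_TH h hb))
    (PT.pow (PT.mul (PT.const 2) (PT.powConst (PT.pow (PT.const 4) h hb) 2)) h hb)
theorem pt_LL {n : α → ℕ} (h : PT n) (hb : PB n) : PT fun a => LL (n a) :=
  PT.add (PT.pow (PT.mul (by fun_prop) (PT.pow (pt_BB h hb) (by fun_prop) (by fun_prop)))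
    (by fun_prop) (by fun_prop)) (PT.const 1)
@[fun_prop] theorem pt_Lw (h : PT W) : PT fun a => Lw (W a) :=
  PT.natCast (pt_LL (pt_Mw h) (pb_Mw h))
@[fun_prop] theorem pt_ww {b : α → Bool × ℕ} (h : PT W) (hb : PT b) :
    PT fun a => ww (W a) (b a) := by unfold ww; fun_prop
@[fun_prop] theorem pt_nx (h : PT W) (hi : PT i) (hj : PT j) :
    PT fun a => nx (W a) (i a) (j a) := by unfold nx; fun_prop
@[fun_prop] theorem pt_ent (h : PT W) (hi : PT i) (hj : PT j) :
    PT fun a => ent (W a) (i a) (j a) := by unfold ent; fun_prop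
@[fun_prop] theorem pt_hA (h : PT W) (hi : PT i) : PT fun a => hA (W a) (i a) := by
  unfold hA; fun_prop
@[fun_prop] theorem pt_hB (h : PT W) (hi : PT i) : PT fun a => hB (W a) (i a) := by
  unfold hB crs; fun_prop
@[fun_prop] theorem pt_PP (h : PT W) (hi : PT i) : PT fun a => PP (W a) (i a) := by
  unfold PP; fun_prop
@[fun_prop] theorem pt_QQ (h : PT W) (hi : PT i) : PT fun a => QQ (W a) (i a) := by
  unfold QQ; fun_prop
@[fun_prop] theorem pt_zw (h : PT W) : PT fun a => zw (W a) := by unfold zw; fun_prop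
@[fun_prop] theorem pt_lst (h : PT W) : PT fun a => lst (W a) := by unfold lst; fun_prop
theorem pt_vars : PT vars := by unfold vars T3.vars; fun_prop
end pt

variable {W : List ℕ} {m : ℕ}

theorem xw_eq {j : ℕ} (h : j < Mw W) : xw W j = xx j := by simp [xw, xx, min_eq_left h.le]

theorem prod_ot (i : ℕ) (g g' : ℕ → ℤ) (h : ∀ j < Mw W, g j = g' j) :
    ((ot W i).map g).prod = ∏ j ∈ (Finset.range (Mw W)).erase i, g' j := by
  rw [ot, ← List.prod_toFinset g (List.nodup_range.filter _)]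
  refine Finset.prod_congr (by ext j; simp [and_comm]) fun j hj => h j ?_
  exact Finset.mem_range.1 (Finset.mem_erase.1 hj).2

theorem Ew_eq {i : ℕ} (h : i < Mw W) : Ew W i = EE (Mw W) i := by
  rw [Ew, EE, xw_eq h, prod_ot i _ _ fun j hj => by rw [xw_eq hj, ← sq, ← sq]]

theorem Dw_eq : Dw W = DD (Mw W) := by
  rw [Dw, ← List.prod_toFinset _ List.nodup_range, DD]
  exact Finset.prod_congr (by ext; simp) fun j hj => Ew_eq (Finset.mem_range.1 hj)

theorem ww_eq {a : Bool × ℕ} (h : a.2 < Mw W) : ww W a = wv a := by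
  obtain ⟨b, i⟩ := a
  cases b <;> simp [ww, wv, sg, xw_eq h, xx]

theorem zw_eq (h : Spec (4 * W.length + 4) (W.length + 3) (PP W) (QQ W)) :
    zw W = (Zp (Mw W) (W.length + 3) (PP W) (QQ W)).eval (Lw W) := by
  rw [zw, ← List.sum_toFinset _ List.nodup_range, Zp, eval_add, eval_C, eval_finset_sum, Dw_eq]
  congr 1
  refine Finset.sum_congr (by ext; simp) fun i hi => ?_
  have hi' := Finset.mem_range.1 hi
  rw [prod_ot i _ _ fun j hj => Ew_eq hj,
    prod_ot i _ (fun j => Lw W ^ 2 - xx j ^ 2) fun j hj => by rw [xw_eq hj, ← sq, ← sq],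
    ww_eq (h.hP i hi').2, ww_eq (h.hQ i hi').2]
  simp only [Dt, eh, FF, eval_mul, eval_C, eval_X, eval_prod, eval_sub, eval_pow]
  split_ifs <;> simp

theorem len_lst : (lst W).length = 2 * (4 * W.length + 4) + 3 := by
  simp [lst, List.length_flatMap, Mw]; ring

theorem set_lst (h : Spec (4 * W.length + 4) (W.length + 3) (PP W) (QQ W)) :
    {y : ℝ | ∃ s ∈ (lst W).map fun z : ℤ => (z : ℚ), (s : ℝ) = y} =
      Set.range (val (4 * W.length + 4) (W.length + 3) (PP W) (QQ W)) := by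
  have vX : ∀ a : Bool × ℕ, a.2 < Mw W → val (4 * W.length + 4) (W.length + 3) (PP W) (QQ W)
      (Xs _ a) = ((sg a.1 * (Dw W * xw W a.2) : ℤ) : ℝ) := fun a ha => by
    rw [val, V_some (by simp), cc_X (M := 4 * W.length + 4) ha, Dw_eq, xw_eq ha]; simp [wv, xx, Mw]; ring
  have vL : ∀ b, val (4 * W.length + 4) (W.length + 3) (PP W) (QQ W) (Ls _ b) =
      ((sg b * (Dw W * Lw W) : ℤ) : ℝ) := fun b => by
    rw [val, V_some (by simp), Dw_eq]; simp [Lw, Mw]; ring
  have vZ : val (4 * W.length + 4) (W.length + 3) (PP W) (QQ W) none = (zw W : ℝ) := by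
    rw [zw_eq h]; rfl
  ext y
  constructor
  · rintro ⟨_, hs, rfl⟩
    obtain ⟨z, hz, rfl⟩ := List.mem_map.1 hs
    simp only [lst, List.mem_append, List.mem_flatMap, List.mem_range, List.mem_cons,
      List.not_mem_nil, or_false] at hz
    rcases hz with ⟨i, hi, rfl | rfl⟩ | rfl | rfl | rfl
    · exact ⟨Xs _ (false, i), by rw [vX _ hi]; simp [sg]⟩
    · exact ⟨Xs _ (true, i), by rw [vX _ hi]; simp [sg]⟩
    · exact ⟨Ls _ false, by rw [vL]; simp [sg]⟩
    · exact ⟨Ls _ true, by rw [vL]; simp [sg]⟩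
    · exact ⟨none, by rw [vZ]; simp⟩
  · rintro ⟨s, rfl⟩
    have key : ∀ z ∈ lst W, ((z : ℤ) : ℝ) ∈
        {y : ℝ | ∃ s ∈ (lst W).map fun z : ℤ => (z : ℚ), (s : ℝ) = y} :=
      fun z hz => ⟨z, List.mem_map.2 ⟨z, hz, rfl⟩, by simp⟩
    rcases sym_cases s with rfl | ⟨b, rfl⟩ | ⟨⟨b, i⟩, hi, rfl⟩
    · rw [vZ]; exact key _ (by simp [lst])
    · rw [vL]; exact key _ (by cases b <;> simp [lst, sg])
    · rw [vX _ hi]
      refine key _ (List.mem_append_left _ (List.mem_flatMap.2 ⟨i, List.mem_range.2 hi, ?_⟩))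
      cases b <;> simp [sg]

theorem nodup_lst (h : Spec (4 * W.length + 4) (W.length + 3) (PP W) (QQ W)) :
    ((lst W).map fun z : ℤ => (z : ℚ)).Nodup := by
  have h1 := congrArg Set.ncard (set_lst h)
  have hi : Function.Injective (val (4 * W.length + 4) (W.length + 3) (PP W) (QQ W)) := val_inj h
  rw [Set.ncard_range_of_injective hi, Nat.card_eq_fintype_card, card_sym] at h1
  have h2 : {y : ℝ | ∃ s ∈ (lst W).map fun z : ℤ => (z : ℚ), (s : ℝ) = y} =
      (fun s : ℚ => (s : ℝ)) '' (((lst W).map fun z : ℤ => (z : ℚ)).toFinset : Set ℚ) := by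
    ext y; simp
  rw [h2, Set.ncard_image_of_injective _ Rat.cast_injective, Set.ncard_coe_finset] at h1
  rw [← Multiset.coe_nodup, ← Multiset.toFinset_card_eq_card_iff_nodup]
  simpa [len_lst] using h1

theorem main (hn : W.length = 3 * m) (hv : ∀ c < W.length, W.getD c 0 < W.length)
    (hd : ∀ c c', c' < c → c < W.length → W.getD c' 0 = W.getD c 0 → c' / 3 < c / 3) :
    (∃ β, NAE W m β) ↔ Compressible ((lst W).map fun z : ℤ => (z : ℚ)) (2 * Mw W) := by
  have h := spec hn hv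
  unfold Compressible
  rw [set_lst h, List.length_map, len_lst, ← card_sym]
  constructor
  · rintro ⟨β, hβ⟩
    obtain ⟨f, hf, hs⟩ := bwd h (ch W β)
    obtain ⟨x, hx, e⟩ : val _ (W.length + 3) (PP W) (QQ W) (Xs (4 * W.length + 4) (true, 0)) ∈
        {y : ℝ | ∃ s ∈ (lst W).map fun z : ℤ => (z : ℚ), (s : ℝ) = y} := by
      rw [set_lst h]; exact ⟨_, rfl⟩
    refine ⟨f, hf, x, hx, ?_⟩
    rw [e]
    refine orbit_of_rank _ (val_inj h) _ _ (rk W β) fun s hs' => ?_
    obtain ⟨t, h1, rfl, h3⟩ := comb_fwd hn hv hd β hβ s hs'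
    exact ⟨t, hs t h1, h3⟩
  · rintro ⟨f, hf, x, -, e⟩
    obtain ⟨last, σ, h1, h2, h3⟩ := orbit_struct _ (val_inj h) _ _ Fintype.card_pos e
    obtain rfl := last_none h f hf last σ h1 h2 h3
    exact comb_bwd hn hv σ h2 h3 (fwd h f hf σ h1 h2 h3)

theorem len_flat (φ : List (T3 ℕ)) : (φ.flatMap T3.vars).length = 3 * φ.length := by
  induction φ with
  | nil => rfl
  | cons C φ ih => simp only [List.flatMap_cons, List.length_append, ih]; simp [T3.vars]; ring

theorem len_vars (φ : List (T3 ℕ)) : (vars φ).length = 3 * φ.length := by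
  rw [vars, List.length_map, len_flat]

theorem vars_lt (φ : List (T3 ℕ)) : ∀ c < (vars φ).length, (vars φ).getD c 0 < (vars φ).length := by
  intro c hc
  rw [List.getD_eq_getElem _ _ hc]
  obtain ⟨x, -, hx⟩ := List.mem_map.1 (List.getElem_mem hc)
  rw [len_vars] at hc
  rw [← hx, len_vars]
  exact Nat.mod_lt _ (by omega)

theorem get_flat (φ : List (T3 ℕ)) : ∀ (j : ℕ) (hj : j < φ.length) (p : ℕ), p < 3 →
    (φ.flatMap T3.vars).getD (3 * j + p) 0 = φ[j].vars.getD p 0 := by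
  induction φ with
  | nil => intro j hj; simp at hj
  | cons C φ ih =>
    intro j hj p hp
    rcases j with _ | j
    · interval_cases p <;> simp [T3.vars]
    · rw [show 3 * (j + 1) + p = (3 * j + p) + 1 + 1 + 1 by ring]
      simpa [T3.vars] using ih j (by simpa using hj) p hp

/-- K-COMPRESSIBILITY is NP-hard. -/
theorem result : NPHard fun a : {a : List ℚ × ℕ // a.1.Nodup ∧ a.2 + 2 < a.1.length} =>
    Compressible a.1.1 a.1.2 := by
  refine NPHard.of_nae (fun φ => ⟨((lst (vars φ)).map fun z : ℤ => (z : ℚ), 2 * Mw (vars φ)),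
    nodup_lst (spec (len_vars φ) (vars_lt φ)), by simp [len_lst, Mw]⟩)
    (PT.subtype (by have := pt_vars; fun_prop) _) fun φ h => ?_
  have e : vars φ = φ.flatMap T3.vars := by
    rw [vars, List.map_congr_left (g := id), List.map_id]
    intro x hx
    obtain ⟨C, hC, hx⟩ := List.mem_flatMap.1 hx
    exact Nat.mod_eq_of_lt ((h C hC).2 x hx)
  have g : ∀ (j : ℕ) (hj : j < φ.length), (vars φ).getD (3 * j) 0 = φ[j].1 ∧
      (vars φ).getD (3 * j + 1) 0 = φ[j].2.1 ∧ (vars φ).getD (3 * j + 2) 0 = φ[j].2.2 :=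
    fun j hj => by
      rw [e]
      exact ⟨get_flat φ j hj 0 (by omega), get_flat φ j hj 1 (by omega), get_flat φ j hj 2 (by omega)⟩
  refine Iff.trans ?_ (main (len_vars φ) (vars_lt φ) fun c c' h1 h2 h3 => ?_)
  · refine exists_congr fun β => ⟨fun hβ j hj => ?_, fun hβ C hC => ?_⟩
    · obtain ⟨g1, g2, g3⟩ := g j hj
      have := hβ _ (List.getElem_mem hj)
      rw [g1, g2, g3]
      simpa [nae, imp_iff_not_or] using this
    · obtain ⟨j, hj, rfl⟩ := List.getElem_of_mem hC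
      obtain ⟨g1, g2, g3⟩ := g j hj
      have := hβ j hj
      rw [g1, g2, g3] at this
      simpa [nae, imp_iff_not_or] using this
  · rw [len_vars] at h2
    by_contra hc
    have hj : c / 3 < φ.length := by omega
    obtain ⟨g1, g2, g3⟩ := g _ hj
    obtain ⟨d1, d2, d3⟩ := (h _ (List.getElem_mem hj)).1
    rcases (by omega : (c' = 3 * (c / 3) ∧ c = 3 * (c / 3) + 1) ∨
      (c' = 3 * (c / 3) ∧ c = 3 * (c / 3) + 2) ∨ (c' = 3 * (c / 3) + 1 ∧ c = 3 * (c / 3) + 2))
      with ⟨a, b⟩ | ⟨a, b⟩ | ⟨a, b⟩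
    · exact d1 (by rw [← g1, ← g2, ← b, ← h3, a])
    · exact d2 (by rw [← g1, ← g3, ← b, ← h3, a])
    · exact d3 (by rw [← g2, ← g3, ← b, ← h3, a])

end Pool.Agent.Results.MP_666b32_lc.Hard
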